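import Pool.Agent.H31.MP.Basic

/-!
B1: the choice of the weights.
-/

set_option autoImplicit false

open Finset Real Filter
open scoped Nat

namespace Pool.Agent.H49.MTP

open Pool.Agent.H31.MP
open Pool.Agent.H30.BV (NX wx WX SC Sf)

theorem HH_mem {k y₀ : ℕ} {H : ℝ} {h : Fin k → ℕ} (hh : h ∈ HH k y₀ H) (hH : 0 ≤ H) :
    Function.Injective h ∧ ∀ i, (h i : ℝ) ≤ H := by
  unfold HH at hh
  rw [Finset.mem_filter, Fintype.mem_piFinset] at hh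
  refine ⟨hh.2, fun i => ?_⟩
  have h1 := (Finset.mem_filter.1 (hh.1 i)).1
  rw [Finset.mem_range] at h1
  exact (Nat.le_floor_iff hH).1 (by omega)

theorem NX_ge {Z : ℝ} : 3 * Z ≤ (NX Z : ℝ) := Nat.le_ceil _

theorem pf_B1 (hML : T_ML) (hIU : T_IU) (hPT : T_PT) (hMA : T_MA) (hCM : T_CM) : T_B1 := by
  intro M κ hM hκ hκ8
  obtain ⟨c₀, Zc, hc₀, hCM'⟩ := hCM
  obtain ⟨k, δ₁, hk, hδ₁, hML'⟩ := hML (max (M / c₀) 1) (κ / 4)
    (lt_of_lt_of_le one_pos (le_max_right _ _)) (by linarith) (by linarith)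
  obtain ⟨b', hIU'⟩ := hIU k (1 / 2) hk (by norm_num)
  refine ⟨k, hk, fun b y₁ => ?_⟩
  have hb0 : (0 : ℝ) < 4 * b + 6 := by positivity
  have hb1 : (0 : ℝ) < 4 * b' + 6 := by positivity
  obtain ⟨δ, hδ0, hδ1, hδ2, hδ3, hδ4⟩ : ∃ δ : ℝ, 0 < δ ∧ δ ≤ δ₁ ∧ δ ≤ 1 ∧
      δ * (4 * b + 6) ≤ κ / 4 ∧ δ * (4 * b' + 6) ≤ 1 / 4 := by
    refine ⟨min (min δ₁ 1) (min ((κ / 4) / (4 * b + 6)) ((1 / 4) / (4 * b' + 6))), ?_, ?_, ?_,
      ?_, ?_⟩
    · refine lt_min (lt_min hδ₁ one_pos) (lt_min ?_ ?_)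
      · exact div_pos (by linarith) hb0
      · exact div_pos (by norm_num) hb1
    · exact (min_le_left _ _).trans (min_le_left _ _)
    · exact (min_le_left _ _).trans (min_le_right _ _)
    · rw [← le_div_iff₀ hb0]
      exact (min_le_right _ _).trans (min_le_left _ _)
    · rw [← le_div_iff₀ hb1]
      exact (min_le_right _ _).trans (min_le_right _ _)
  set y₀ : ℕ := max y₁ (2 * k + 6) with hy₀
  have hy2 : 2 * k + 6 ≤ y₀ := le_max_right _ _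
  have hy3 : 2 * k + 2 ≤ y₀ := by omega
  obtain ⟨C, X₁, hC, hML2⟩ := hML' δ hδ0 hδ1
  obtain ⟨C', X₂, hC', hPT'⟩ := hPT k δ C hδ0 hC.le
  obtain ⟨ca, hca, hMA'⟩ := hMA k y₀ hy3
  obtain ⟨X₃, hIU2⟩ := hIU' y₀ (k + 1) δ C hy3 hδ0 hδ4 hC.le
  have hP : (0 : ℝ) < (primorial y₀ : ℝ) := by exact_mod_cast primorial_pos y₀
  set c : ℝ := 6 / (primorial y₀ : ℝ) * (ca / δ ^ k) with hc
  have hc0 : 0 < c := mul_pos (div_pos (by norm_num) hP) (div_pos hca (pow_pos hδ0 k))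
  refine ⟨y₀, δ, c, max C C', le_max_left _ _, hy2, hδ0, hδ2, hδ3, hc0,
    lt_of_lt_of_le hC (le_max_left _ _), ?_⟩
  have hev : ∀ᶠ Z : ℝ in atTop, X₁ ≤ Z ∧ X₂ ≤ Z ∧ X₃ ≤ Z ∧ Zc ≤ Z ∧ (y₀ : ℝ) ≤ Z ^ δ ∧
      2 ≤ Z ^ δ ∧ 4 / c ≤ Real.log Z ∧ 1 ≤ Real.log Z ∧ 1 ≤ Z := by
    have t1 := tendsto_rpow_atTop hδ0
    have t2 := Real.tendsto_log_atTop
    filter_upwards [eventually_ge_atTop X₁, eventually_ge_atTop X₂, eventually_ge_atTop X₃,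
      eventually_ge_atTop Zc, t1.eventually_ge_atTop (y₀ : ℝ), t1.eventually_ge_atTop 2,
      t2.eventually_ge_atTop (4 / c), t2.eventually_ge_atTop 1, eventually_ge_atTop 1]
      with Z a1 a2 a3 a4 a5 a6 a7 a8 a9
    exact ⟨a1, a2, a3, a4, a5, a6, a7, a8, a9⟩
  obtain ⟨Z₀, hZ₀⟩ := eventually_atTop.1 hev
  refine ⟨Z₀, fun Z hZ => ?_⟩
  obtain ⟨a1, a2, a3, a4, a5, a6, a7, a8, a9⟩ := hZ₀ Z hZ
  obtain ⟨l, hl, hq1, hq2⟩ := hML2 Z a1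
  refine ⟨l, ⟨hl.supp, fun d => (hl.bd d).trans (le_max_left _ _)⟩, fun h hh => ?_⟩
  have hL0 : 0 < Real.log Z := lt_of_lt_of_le one_pos a8
  have hZ0 : 0 < Z := lt_of_lt_of_le one_pos a9
  obtain ⟨hinj, hbd⟩ := HH_mem hh (mul_nonneg hκ.le hL0.le)
  have hbd20 : ∀ i, (h i : ℝ) ≤ 20 * Real.log Z := fun i =>
    (hbd i).trans (mul_le_mul_of_nonneg_right (by linarith) hL0.le)
  -- the normalization
  have hV := hMA' (Z ^ δ) h a6
  have hlogz : Real.log (Z ^ δ) = δ * Real.log Z := Real.log_rpow hZ0 δ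
  have hLk : 0 < Real.log Z ^ k := pow_pos hL0 k
  have hV1 : ca / (δ * Real.log Z) ^ k ≤ V1 y₀ (Z ^ δ) h := by
    have := hV.1
    rwa [hlogz] at this
  have hx0 : 0 ≤ ca / (δ * Real.log Z) ^ k :=
    div_nonneg hca.le (pow_nonneg (mul_nonneg hδ0.le hL0.le) k)
  have htn : c * Z / Real.log Z ^ k ≤ tn Z y₀ (Z ^ δ) (Z ^ (κ / 4)) l h := by
    have e1 : c * Z / Real.log Z ^ k =
        2 * (3 * Z / (primorial y₀ : ℝ) * (ca / (δ * Real.log Z) ^ k) * 1) := by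
      rw [hc, mul_pow]
      have : δ ^ k ≠ 0 := (pow_pos hδ0 k).ne'
      field_simp
      ring
    rw [e1]
    unfold tn
    refine mul_le_mul_of_nonneg_left ?_ (by norm_num)
    refine mul_le_mul ?_ hq1 zero_le_one ?_
    · refine mul_le_mul ?_ hV1 hx0 ?_
      · exact div_le_div_of_nonneg_right NX_ge hP.le
      · exact div_nonneg (Nat.cast_nonneg _) hP.le
    · exact mul_nonneg (div_nonneg (Nat.cast_nonneg _) hP.le) (hx0.trans hV1)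
  have hcz0 : 0 ≤ c * Z / Real.log Z ^ k :=
    div_nonneg (mul_nonneg hc0.le hZ0.le) hLk.le
  have htn0 : 0 ≤ tn Z y₀ (Z ^ δ) (Z ^ (κ / 4)) l h := hcz0.trans htn
  refine ⟨?_, htn, ?_, ?_⟩
  · intro n hn
    obtain ⟨hn1, hn2⟩ := Finset.mem_Icc.1 hn
    exact (hPT' Z a2 _ h l n hl hbd20 hn1 hn2).trans (le_max_right _ _)
  · have hY1 : 1 ≤ Z ^ (κ / 4) := Real.one_le_rpow a9 (by linarith)
    have hY2 : Z ^ (κ / 4) ≤ Z ^ (1 / 4 : ℝ) := Real.rpow_le_rpow_of_exponent_le a9 (by linarith)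
    have hI := hIU2 Z a3 (Z ^ (κ / 4)) h l hinj hbd20 hY1 hY2 hl
    refine hI.trans ?_
    have e2 : Z / Real.log Z ^ (k + 1) ≤ 1 / 4 * (c * Z / Real.log Z ^ k) := by
      rw [div_le_iff₀ (pow_pos hL0 _)]
      have e3 : 1 / 4 * (c * Z / Real.log Z ^ k) * Real.log Z ^ (k + 1) =
          1 / 4 * (c * Real.log Z) * Z := by
        rw [pow_succ]
        field_simp
      rw [e3]
      have e4 : 4 ≤ c * Real.log Z := by
        rw [div_le_iff₀ hc0] at a7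
        linarith
      nlinarith
    have e5 : tn Z y₀ (Z ^ δ) (Z ^ (κ / 4)) l h =
      2 * (NX Z / primorial y₀ * V1 y₀ (Z ^ δ) h * QF (Z ^ δ) (Z ^ (κ / 4)) l) := rfl
    linarith
  · have hM2 : M ≤ c₀ * max (M / c₀) 1 := by
      have h1 : M / c₀ ≤ max (M / c₀) 1 := le_max_left _ _
      rw [div_le_iff₀ hc₀] at h1
      linarith
    have hcm := hCM' Z a4 k y₀ δ (Z ^ (κ / 4)) (max (M / c₀) 1) l h hk hy3 a5 hδ0 hδ2
      (le_trans zero_le_one (le_max_right _ _)) hq2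
    exact (mul_le_mul_of_nonneg_right hM2 htn0).trans hcm

end Pool.Agent.H49.MTP
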